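import Pool.Agent.H266R3.LFin

set_option autoImplicit false

namespace Pool.Agent.Results.MP_71cd47_an.NotIsomorphic

open Pool.Agent.H266R3.LF

/-- There is no bounded linear bijection from the Lipschitz-free space of `ℝ × ℤ` (as a subset of the
Euclidean plane) onto the Lipschitz-free space of the Euclidean plane. -/
theorem result : ¬ ∃ T : FreeLines →L[ℝ] FreePlane, Function.Bijective T :=
  no_bijection'

end Pool.Agent.Results.MP_71cd47_an.NotIsomorphic
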